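import Pool.Agent.Helper91.TCU.Pad

/-!
# One step for lists of different lengths
-/

set_option autoImplicit false
set_option linter.unusedSectionVars false

namespace Pool.TCU.Pad

open Pool.TC Pool.TCM Pool.TCS Pool.TCU Finset
open scoped Classical

attribute [-instance] instDecidableEqSum

variable {V κ : Type} {D l : ℕ}

/-- a test on the real options -/
noncomputable def TR (F : V → κ → ℝ) : V ⊕ (V × Fin l) → κ ⊕ (Fin (D + 1) × Fin l) → ℝ
  | Sum.inl w, Sum.inl b => F w b
  | _, _ => 0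

/-- a test on the dummies -/
noncomputable def TX (F : V → ℝ) : V ⊕ (V × Fin l) → κ ⊕ (Fin (D + 1) × Fin l) → ℝ
  | Sum.inl w, Sum.inr _ => F w
  | _, _ => 0

theorem TR_nn {F : V → κ → ℝ} (h : ∀ w b, 0 ≤ F w b) (w : V ⊕ (V × Fin l))
    (b : κ ⊕ (Fin (D + 1) × Fin l)) : 0 ≤ TR F w b := by
  rcases w with w | w <;> rcases b with b | b
  · exact h w b
  · exact le_rfl
  · exact le_rfl
  · exact le_rfl

theorem TR_le {F : V → κ → ℝ} {μ : ℝ} (h0 : 0 ≤ μ) (h : ∀ w b, F w b ≤ μ) (w : V ⊕ (V × Fin l))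
    (b : κ ⊕ (Fin (D + 1) × Fin l)) : TR F w b ≤ μ := by
  rcases w with w | w <;> rcases b with b | b
  · exact h w b
  · exact h0
  · exact h0
  · exact h0

theorem TX_nn {F : V → ℝ} (h : ∀ w, 0 ≤ F w) (w : V ⊕ (V × Fin l))
    (b : κ ⊕ (Fin (D + 1) × Fin l)) : 0 ≤ TX F w b := by
  rcases w with w | w <;> rcases b with b | b
  · exact le_rfl
  · exact h w
  · exact le_rfl
  · exact le_rfl

theorem TX_le {F : V → ℝ} {μ : ℝ} (h0 : 0 ≤ μ) (h : ∀ w, F w ≤ μ) (w : V ⊕ (V × Fin l))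
    (b : κ ⊕ (Fin (D + 1) × Fin l)) : TX F w b ≤ μ := by
  rcases w with w | w <;> rcases b with b | b
  · exact h0
  · exact h w
  · exact h0
  · exact h0

theorem nm_TR {U : Finset V} {L : V → Finset κ} {idx : V → Fin (D + 1)} (F : V → κ → ℝ)
    [Fintype V] [Fintype κ] : nm (PU U l) (PL L idx l) (TR F) = nm U L F := by
  unfold nm
  rw [sum_PU]
  refine sum_congr rfl fun u _ => ?_
  rw [sum_PL]
  have h1 : ∑ p ∈ dum L idx l u, TR F (Sum.inl u : V ⊕ (V × Fin l))
      (Sum.inr p : κ ⊕ (Fin (D + 1) × Fin l)) = 0 := sum_eq_zero fun p _ => rfl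
  rw [h1, add_zero]
  rfl

theorem nm_TX {U : Finset V} {L : V → Finset κ} {idx : V → Fin (D + 1)} (F : V → ℝ)
    [Fintype V] [Fintype κ] : nm (PU U l) (PL L idx l) (TX F) =
      ∑ u ∈ U, ((l - (L u).card : ℕ) : ℝ) * F u := by
  unfold nm
  rw [sum_PU]
  refine sum_congr rfl fun u _ => ?_
  rw [sum_PL]
  have h1 : ∑ a ∈ L u, TX F (Sum.inl u : V ⊕ (V × Fin l))
      (Sum.inl a : κ ⊕ (Fin (D + 1) × Fin l)) = 0 := sum_eq_zero fun p _ => rfl
  have h2 : ∑ p ∈ dum L idx l u, TX F (Sum.inl u : V ⊕ (V × Fin l))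
      (Sum.inr p : κ ⊕ (Fin (D + 1) × Fin l)) = ∑ _p ∈ dum L idx l u, F u :=
    sum_congr rfl fun p _ => rfl
  rw [h1, zero_add, h2, sum_const, card_dum, nsmul_eq_mul]

section choice
variable (B' : Finset (V ⊕ (V × Fin l))) (c' : V ⊕ (V × Fin l) → κ ⊕ (Fin (D + 1) × Fin l))

/-- the vertices with a real choice -/
noncomputable def BR (U : Finset V) : Finset V :=
  U.filter fun u => Sum.inl u ∈ B' ∧ ∃ a, c' (Sum.inl u) = Sum.inl a

/-- the vertices with a dummy choice -/
noncomputable def BXd (U : Finset V) : Finset V :=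
  U.filter fun u => Sum.inl u ∈ B' ∧ ∃ p, c' (Sum.inl u) = Sum.inr p

/-- the real choice -/
noncomputable def cR [Nonempty κ] (u : V) : κ := Sum.elim id (fun _ => Classical.arbitrary κ) (c' (Sum.inl u))

theorem cR_eq [Nonempty κ] {u : V} {a : κ} (h : c' (Sum.inl u) = Sum.inl a) : cR c' u = a := by
  unfold cR
  rw [h]
  rfl

theorem cR_mem [Nonempty κ] {U : Finset V} {u : V} (h : u ∈ BR B' c' U) :
    u ∈ U ∧ Sum.inl u ∈ B' ∧ c' (Sum.inl u) = Sum.inl (cR c' u) := by
  unfold BR at h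
  rw [mem_filter] at h
  obtain ⟨h1, h2, a, h3⟩ := h
  exact ⟨h1, h2, by rw [cR_eq c' h3, h3]⟩

theorem sum_B {U : Finset V} (hB : B' ⊆ PU U l) (F : V ⊕ (V × Fin l) → ℝ) :
    ∑ w ∈ B', F w = ∑ u ∈ U, if Sum.inl u ∈ B' then F (Sum.inl u) else 0 := by
  rw [← sum_PU (l := l) U (fun w => if w ∈ B' then F w else 0), ← sum_filter]
  congr 1
  ext w
  rw [mem_filter]
  exact ⟨fun h => ⟨hB h, h⟩, fun h => h.2⟩

theorem sum_TR [Nonempty κ] {U : Finset V} (hB : B' ⊆ PU U l) (F : V → κ → ℝ) :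
    ∑ w ∈ B', TR F w (c' w) = ∑ u ∈ BR B' c' U, F u (cR c' u) := by
  rw [sum_B B' hB]
  unfold BR
  rw [sum_filter]
  refine sum_congr rfl fun u _ => ?_
  by_cases h1 : Sum.inl u ∈ B'
  · rw [if_pos h1]
    rcases h2 : c' (Sum.inl u) with a | p
    · rw [if_pos ⟨h1, a, rfl⟩, cR_eq c' h2]
      rfl
    · rw [if_neg]
      · rfl
      · rintro ⟨_, a, h3⟩
        exact absurd h3 (by simp)
  · rw [if_neg h1, if_neg fun h => h1 h.1]

theorem sum_TX {U : Finset V} (hB : B' ⊆ PU U l) (F : V → ℝ) :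
    ∑ w ∈ B', TX F w (c' w) = ∑ u ∈ BXd B' c' U, F u := by
  rw [sum_B B' hB]
  unfold BXd
  rw [sum_filter]
  refine sum_congr rfl fun u _ => ?_
  by_cases h1 : Sum.inl u ∈ B'
  · rw [if_pos h1]
    rcases h2 : c' (Sum.inl u) with a | p
    · rw [if_neg]
      · rfl
      · rintro ⟨_, a, h3⟩
        exact absurd h3 (by simp)
    · rw [if_pos ⟨h1, p, rfl⟩]
      rfl
  · rw [if_neg h1, if_neg fun h => h1 h.1]

theorem not_BR {U : Finset V} {u : V} (hu : u ∈ U) (h : u ∉ BR B' c' U) :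
    Sum.inl u ∉ B' ∨ u ∈ BXd B' c' U := by
  by_cases h1 : Sum.inl u ∈ B'
  · right
    unfold BXd
    rw [mem_filter]
    refine ⟨hu, h1, ?_⟩
    rcases h2 : c' (Sum.inl u) with a | p
    · exact absurd (by unfold BR; rw [mem_filter]; exact ⟨hu, h1, a, h2⟩) h
    · exact ⟨p, rfl⟩
  · exact Or.inl h1

end choice

theorem Er_mul {K : ℕ} {Lam : ℝ} (hl : 0 < l) (hL : 0 ≤ Lam) :
    Er K Lam l * l = 2 ^ 18 * (1 / 2) ^ K * l + 128 * (K : ℝ) ^ 2 * Real.sqrt (l * Lam) := by
  have h0 : (0 : ℝ) < l := by exact_mod_cast hl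
  have h1 : Real.sqrt (Lam / l) * l = Real.sqrt (l * Lam) := by
    rw [← Real.sqrt_sq h0.le, ← Real.sqrt_mul (by rw [Real.sqrt_sq h0.le]; positivity),
      Real.sqrt_sq h0.le]
    congr 1
    field_simp
  unfold Er
  rw [add_mul, mul_assoc (128 * (K : ℝ) ^ 2), h1]

theorem num0 {Lam : ℝ} (hl : 0 < l) (hL : 1 ≤ Lam) (hLl : Lam ≤ l) {d : ℝ} (hd : d ≤ 2 * l) :
    Real.sqrt ((1 * d + Lam * 1 ^ 2) * Lam) ≤ 2 * Real.sqrt (l * Lam) := by
  have h0 : (0 : ℝ) < l := by exact_mod_cast hl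
  have h1 : Real.sqrt (4 * (l * Lam)) = 2 * Real.sqrt (l * Lam) := by
    rw [Real.sqrt_mul (by norm_num), show (4 : ℝ) = 2 ^ 2 by norm_num, Real.sqrt_sq (by norm_num)]
  rw [← h1]
  apply Real.sqrt_le_sqrt
  nlinarith

theorem num1 {K : ℕ} {Lam : ℝ} (hl : 0 < l) (hL : 1 ≤ Lam) (hLl : Lam ≤ l) (hK : 24 ≤ K) {d : ℝ}
    (hd : d ≤ 2 * l) :
    12 * K * Real.sqrt ((1 * d + Lam * 1 ^ 2) * Lam) ≤ Er K Lam l * l := by
  have h0 : (0 : ℝ) < l := by exact_mod_cast hl
  have hK' : (24 : ℝ) ≤ K := by exact_mod_cast hK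
  rw [Er_mul hl (by linarith)]
  have h1 := num0 hl hL hLl hd
  have h2 : 0 ≤ Real.sqrt (l * Lam) := Real.sqrt_nonneg _
  have h3 : (0 : ℝ) ≤ 2 ^ 18 * (1 / 2) ^ K * l := by positivity
  have h4 : 12 * (K : ℝ) * Real.sqrt ((1 * d + Lam * 1 ^ 2) * Lam) ≤
      12 * K * (2 * Real.sqrt (l * Lam)) := by gcongr
  have h5 : 12 * (K : ℝ) * (2 * Real.sqrt (l * Lam)) ≤ 128 * (K : ℝ) ^ 2 * Real.sqrt (l * Lam) := by
    nlinarith [mul_nonneg (show (0 : ℝ) ≤ (K : ℝ) by linarith) h2]
  exact (h4.trans h5).trans (le_add_of_nonneg_left h3)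

theorem num2 {K : ℕ} {Lam : ℝ} (hl : 0 < l) (hL : 1 ≤ Lam) (hLl : Lam ≤ l) (hK : 24 ≤ K) {d n s : ℝ}
    (hd : d ≤ 2 * l) (hn : n ≤ 2 * l) (hs : s ≤ 4 * l) :
    4 * n / l + 64 * (K : ℝ) ^ 2 * Real.sqrt (s * Lam) +
      12 * K * Real.sqrt ((1 * d + Lam * 1 ^ 2) * Lam) ≤ 2 * Er K Lam l * l := by
  have h0 : (0 : ℝ) < l := by exact_mod_cast hl
  have hK' : (24 : ℝ) ≤ K := by exact_mod_cast hK
  rw [mul_assoc 2 (Er K Lam l), Er_mul hl (by linarith)]
  have h1 := num0 hl hL hLl hd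
  have h2 : 1 ≤ Real.sqrt (l * Lam) := by
    rw [Real.one_le_sqrt]
    nlinarith
  have h3 : (0 : ℝ) ≤ 2 ^ 18 * (1 / 2) ^ K * l := by positivity
  have h4 : 12 * (K : ℝ) * Real.sqrt ((1 * d + Lam * 1 ^ 2) * Lam) ≤
      12 * K * (2 * Real.sqrt (l * Lam)) := by gcongr
  have h5 : Real.sqrt (s * Lam) ≤ 2 * Real.sqrt (l * Lam) := by
    have h6 : Real.sqrt (4 * (l * Lam)) = 2 * Real.sqrt (l * Lam) := by
      rw [Real.sqrt_mul (by norm_num), show (4 : ℝ) = 2 ^ 2 by norm_num, Real.sqrt_sq (by norm_num)]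
    rw [← h6]
    apply Real.sqrt_le_sqrt
    nlinarith
  have h6 : 64 * (K : ℝ) ^ 2 * Real.sqrt (s * Lam) ≤
      64 * (K : ℝ) ^ 2 * (2 * Real.sqrt (l * Lam)) := by gcongr
  have h7 : 4 * n / l ≤ 8 := by
    rw [div_le_iff₀ h0]
    linarith
  have h8 : 8 + 12 * (K : ℝ) * 2 ≤ 128 * (K : ℝ) ^ 2 := by nlinarith
  have h9 : (8 + 12 * (K : ℝ) * 2) * Real.sqrt (l * Lam) ≤
      128 * (K : ℝ) ^ 2 * Real.sqrt (l * Lam) := by gcongr
  generalize 2 ^ 18 * (1 / 2) ^ K * (l : ℝ) = A at h3 ⊢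
  have h10 : (8 + 12 * (K : ℝ) * 2) * Real.sqrt (l * Lam) =
    8 * Real.sqrt (l * Lam) + 12 * K * (2 * Real.sqrt (l * Lam)) := by ring
  have h11 : 64 * (K : ℝ) ^ 2 * (2 * Real.sqrt (l * Lam)) =
    128 * (K : ℝ) ^ 2 * Real.sqrt (l * Lam) := by ring
  rw [h11] at h6
  rw [h10] at h9
  rw [mul_add]
  generalize 12 * (K : ℝ) * Real.sqrt ((1 * d + Lam * 1 ^ 2) * Lam) = X3 at h4 ⊢
  generalize 64 * (K : ℝ) ^ 2 * Real.sqrt (s * Lam) = X2 at h6 ⊢
  generalize 128 * (K : ℝ) ^ 2 * Real.sqrt (l * Lam) = X4 at h6 h9 ⊢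
  generalize 12 * (K : ℝ) * (2 * Real.sqrt (l * Lam)) = X5 at h4 h9
  generalize 4 * n / (l : ℝ) = X1 at h7 ⊢
  linarith

end Pool.TCU.Pad

namespace Pool.TCU

open Pool.TC Pool.TCM Pool.TCS Finset Pad
open scoped Classical

attribute [-instance] instDecidableEqSum

section main
variable {V κ J : Type} [Fintype V] [Fintype κ] [Fintype J] [Nonempty κ] {S : CS V κ}
  {U : Finset V} {L : V → Finset κ} {D l m K : ℕ} {x : ℝ} {q : V → κ → ℝ} {Lam : ℝ}
  {idx : V → Fin (D + 1)}

private theorem pq_l (u : V) (a : κ) :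
    pq (PS S D l) (PU U l) (PL L idx l) l m K (Sum.inl u) (Sum.inl a) = pq S U L l m K u a := by
  unfold pq
  rw [Pn_l, card_map, npair_l]

private theorem hypP (h : HypL S U L D l m K x q Lam) (hidx : ∀ u w, S.adj u w → idx u ≠ idx w) :
    Hyp (PS S D l) (PU U l) (PL L idx l) ((D + 1) ^ 2) l m K x (TR q) Lam where
  deg := by
    rintro (u | u)
    · have h1 : (univ.filter fun v : V ⊕ (V × Fin l) => (PS S D l).adj (Sum.inl u) v) =
          (univ.filter fun v => S.adj u v).map Function.Embedding.inl := by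
        ext w
        simp only [mem_filter, mem_univ, true_and, mem_map, Function.Embedding.inl_apply]
        rcases w with w | w
        · rw [adj_ll]
          constructor
          · intro h
            exact ⟨w, h, rfl⟩
          · rintro ⟨w', h, h'⟩
            rwa [← Sum.inl.inj h']
        · constructor
          · intro h
            exact absurd h (adj_r _ _)
          · rintro ⟨w', _, h'⟩
            exact absurd h' (by simp)
      rw [h1, card_map]
      have h2 := h.deg u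
      nlinarith
    · have h1 : (univ.filter fun v : V ⊕ (V × Fin l) => (PS S D l).adj (Sum.inr u) v) = ∅ := by
        rw [eq_empty_iff_forall_notMem]
        intro w hw
        rw [mem_filter] at hw
        exact hw.2
      rw [h1, card_empty]
      exact Nat.zero_le _
  col := by
    rw [Fintype.card_sum, Fintype.card_prod, Fintype.card_fin, Fintype.card_fin]
    have h1 := h.col
    have h2 := h.lD
    nlinarith
  card := by
    intro w hw
    obtain ⟨u, hu, rfl⟩ := PU_cases hw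
    exact card_PL (h.card u hu)
  inj2 := by
    intro w hw a ha b hb hab
    obtain ⟨u, hu, rfl⟩ := PU_cases hw
    rcases a with a | p <;> rcases b with b | p'
    · rw [mem_PLl] at ha hb
      rw [r_ll, r_ll] at hab
      rw [h.inj2 u hu a ha b hb (Sum.inl.inj hab)]
    · rw [r_ll, r_lr] at hab
      exact absurd hab (by simp)
    · rw [r_ll, r_lr] at hab
      exact absurd hab (by simp)
    · rw [mem_PLr] at ha hb
      rw [r_lr, r_lr] at hab
      have h1 := Sum.inr.inj hab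
      rw [Prod.mk.injEq] at h1
      rw [Prod.ext (ha.1.trans hb.1.symm) h1.2]
  hC := by
    rintro (v | v)
    · rw [Cv_l, card_map]
      exact h.hC v
    · have h1 := Cv_r (S := S) (D := D) (U := U) (L := L) (idx := idx) v
      have h2 : ((Cv (PS S D l) (PU U l) (PL L idx l) (Sum.inr v)).card : ℝ) ≤ 1 := by
        exact_mod_cast h1
      exact h2.trans h.x0
  hP := by
    intro w hw a ha
    obtain ⟨u, hu, rfl⟩ := PU_cases hw
    rcases a with a | p
    · rw [mem_PLl] at ha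
      rw [Pn_l, card_map]
      exact h.hP u hu a ha
    · rw [Pn_r hidx u p ha, card_empty]
      push_cast
      positivity
  hq := by
    intro w hw a ha
    obtain ⟨u, hu, rfl⟩ := PU_cases hw
    rcases a with a | p
    · rw [mem_PLl] at ha
      rw [pq_l]
      exact h.hq u hu a ha
    · unfold pq
      rw [Pn_r hidx u p ha]
      show _ ≤ (0 : ℝ)
      simp [npair]
  q0 := TR_nn h.q0
  q1 := TR_le (by norm_num) h.q1
  l0 := h.l0
  x0 := by linarith [h.x0]
  x1 := h.x1
  mK := h.mK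
  K24 := h.K24
  L1 := h.L1
  LK := h.LK
  Ll := h.Ll
  hexp := h.hexp

/-- indicator of the vertices which have an option using `v` -/
private noncomputable def cvI (S : CS V κ) (U : Finset V) (L : V → Finset κ) (v : V) (w : V) : ℝ :=
  if ∃ b, (w, b) ∈ Cv S U L v then 1 else 0

/-- indicator of `Pn` -/
private noncomputable def pnI (S : CS V κ) (U : Finset V) (L : V → Finset κ) (p : V × κ) (w : V) :
    ℝ := if w ∈ Pn S U L p.1 p.2 then 1 else 0

/-- indicator of the option `a` at `Pn` -/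
private noncomputable def pnR (S : CS V κ) (U : Finset V) (L : V → Finset κ) (p : V × κ) (w : V)
    (b : κ) : ℝ := if w ∈ Pn S U L p.1 p.2 ∧ b = p.2 then 1 else 0

private theorem cvI01 (v w : V) : 0 ≤ cvI S U L v w ∧ cvI S U L v w ≤ 1 := by
  unfold cvI
  split_ifs <;> norm_num

private theorem pnI01 (p : V × κ) (w : V) : 0 ≤ pnI S U L p w ∧ pnI S U L p w ≤ 1 := by
  unfold pnI
  split_ifs <;> norm_num

private theorem pnR01 (p : V × κ) (w : V) (b : κ) : 0 ≤ pnR S U L p w b ∧ pnR S U L p w b ≤ 1 := by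
  unfold pnR
  split_ifs <;> norm_num

/-- centres of the tests -/
private noncomputable def ctrP (ctr : J → V) (l : ℕ) :
    J ⊕ ((V × κ) ⊕ ((V × κ) ⊕ V)) → V ⊕ (V × Fin l)
  | Sum.inl j => Sum.inl (ctr j)
  | Sum.inr (Sum.inl p) => Sum.inl p.1
  | Sum.inr (Sum.inr (Sum.inl p)) => Sum.inl p.1
  | Sum.inr (Sum.inr (Sum.inr v)) => Sum.inl v

/-- the tests -/
private noncomputable def TP (S : CS V κ) (U : Finset V) (L : V → Finset κ) (T : J → V → κ → ℝ)
    (D l : ℕ) : J ⊕ ((V × κ) ⊕ ((V × κ) ⊕ V)) →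
      V ⊕ (V × Fin l) → κ ⊕ (Fin (D + 1) × Fin l) → ℝ
  | Sum.inl j => TR (T j)
  | Sum.inr (Sum.inl p) => TR (pnR S U L p)
  | Sum.inr (Sum.inr (Sum.inl p)) => TX (pnI S U L p)
  | Sum.inr (Sum.inr (Sum.inr v)) => TX (cvI S U L v)

/-- bounds of the tests -/
private noncomputable def muP (μ : J → ℝ) : J ⊕ ((V × κ) ⊕ ((V × κ) ⊕ V)) → ℝ
  | Sum.inl j => μ j
  | Sum.inr _ => 1

private theorem tstP {ctr : J → V} {T : J → V → κ → ℝ} {μ : J → ℝ}
    (h : HypL S U L D l m K x q Lam) (t : Tst S D ctr T μ) :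
    Tst (PS S D l) ((D + 1) ^ 2) (ctrP (κ := κ) ctr l) (TP S U L T D l) (muP μ) where
  nn := by
    rintro (j | p | p | v)
    · exact TR_nn (t.nn j)
    · exact TR_nn fun w b => (pnR01 p w b).1
    · exact TX_nn fun w => (pnI01 p w).1
    · exact TX_nn fun w => (cvI01 v w).1
  le := by
    rintro (j | p | p | v)
    · exact TR_le (t.pos j) (t.le j)
    · exact TR_le zero_le_one fun w b => (pnR01 p w b).2
    · exact TX_le zero_le_one fun w => (pnI01 p w).2
    · exact TX_le zero_le_one fun w => (cvI01 v w).2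
  pos := by
    rintro (j | j)
    · exact t.pos j
    · exact zero_le_one
  loc := by
    rintro (j | p | p | v) (w | w) (b | b) h0
    · exact near_l (t.loc j w b h0)
    · exact absurd rfl h0
    · exact absurd rfl h0
    · exact absurd rfl h0
    · have h1 : (if w ∈ Pn S U L p.1 p.2 ∧ b = p.2 then (1 : ℝ) else 0) ≠ 0 := h0
      have h2 : w ∈ Pn S U L p.1 p.2 := by
        by_contra h3
        exact h1 (if_neg fun h => h3 h.1)
      unfold Pn at h2
      rw [mem_filter] at h2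
      exact near_l (near_stp (Or.inr (Or.inl h2.2.2.1)) 2)
    · exact absurd rfl h0
    · exact absurd rfl h0
    · exact absurd rfl h0
    · exact absurd rfl h0
    · have h1 : (if w ∈ Pn S U L p.1 p.2 then (1 : ℝ) else 0) ≠ 0 := h0
      have h2 : w ∈ Pn S U L p.1 p.2 := by
        by_contra h3
        exact h1 (if_neg h3)
      unfold Pn at h2
      rw [mem_filter] at h2
      exact near_l (near_stp (Or.inr (Or.inl h2.2.2.1)) 2)
    · exact absurd rfl h0
    · exact absurd rfl h0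
    · exact absurd rfl h0
    · have h1 : (if ∃ b, (w, b) ∈ Cv S U L v then (1 : ℝ) else 0) ≠ 0 := h0
      have h2 : ∃ b, (w, b) ∈ Cv S U L v := by
        by_contra h3
        exact h1 (if_neg h3)
      obtain ⟨a, ha⟩ := h2
      unfold Cv at ha
      rw [mem_filter] at ha
      exact near_l (near_stp (Or.inr (Or.inr (Or.inr ⟨a, ha.2.2.2⟩))) 2)
    · exact absurd rfl h0
    · exact absurd rfl h0
  mul := by
    rintro (v | v)
    · have hD : 1 ≤ D := le_trans h.l0 h.lD
      refine (card_le_card (t := (univ.filter fun j => ctr j = v).disjSum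
            (((univ : Finset κ).image fun a => (v, a)).disjSum
              (((univ : Finset κ).image fun a => (v, a)).disjSum {v}))) ?_).trans ?_
      · rintro (j | p | p | w) hj
        · simp only [mem_filter, mem_univ, true_and] at hj
          rw [inl_mem_disjSum, mem_filter]
          exact ⟨mem_univ _, Sum.inl.inj hj⟩
        · simp only [mem_filter, mem_univ, true_and] at hj
          rw [inr_mem_disjSum, inl_mem_disjSum, mem_image]
          have h1 : p.1 = v := Sum.inl.inj hj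
          exact ⟨p.2, mem_univ _, by rw [← h1]⟩
        · simp only [mem_filter, mem_univ, true_and] at hj
          rw [inr_mem_disjSum, inr_mem_disjSum, inl_mem_disjSum, mem_image]
          have h1 : p.1 = v := Sum.inl.inj hj
          exact ⟨p.2, mem_univ _, by rw [← h1]⟩
        · simp only [mem_filter, mem_univ, true_and] at hj
          rw [inr_mem_disjSum, inr_mem_disjSum, inr_mem_disjSum, mem_singleton]
          exact Sum.inl.inj hj
      rw [card_disjSum, card_disjSum, card_disjSum, card_singleton]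
      have e2 : ((univ : Finset κ).image fun a => (v, a)).card ≤ D :=
        card_image_le.trans h.col
      have e3 := t.mul v
      have e4 : D ^ 5 ≤ (D + 1) ^ 5 := Nat.pow_le_pow_left (Nat.le_succ D) 5
      have e5 : ((D + 1) ^ 2) ^ 5 = (D + 1) ^ 5 * (D + 1) ^ 5 := by ring
      have e6 : 2 ≤ (D + 1) ^ 5 := by
        calc 2 ≤ 2 ^ 5 := by norm_num
          _ ≤ (D + 1) ^ 5 := Nat.pow_le_pow_left (by omega) 5
      have e7 : 2 * D + 1 ≤ (D + 1) ^ 5 := by
        calc 2 * D + 1 ≤ (D + 1) ^ 2 := by nlinarith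
          _ ≤ (D + 1) ^ 5 := Nat.pow_le_pow_right (by omega) (by norm_num)
      rw [e5]
      nlinarith
    · refine (card_le_card (t := ∅) ?_).trans ?_
      · rintro (j | p | p | w) hj
        · simp only [mem_filter, mem_univ, true_and] at hj
          exact absurd hj (by simp [ctrP])
        · simp only [mem_filter, mem_univ, true_and] at hj
          exact absurd hj (by simp [ctrP])
        · simp only [mem_filter, mem_univ, true_and] at hj
          exact absurd hj (by simp [ctrP])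
        · simp only [mem_filter, mem_univ, true_and] at hj
          exact absurd hj (by simp [ctrP])
      rw [card_empty]
      exact Nat.zero_le _


private theorem dd_mul (h : HypL S U L D l m K x q Lam) {u : V} (hu : u ∈ U) :
    ((l - (L u).card : ℕ) : ℝ) / l = dd L l u := by
  have h0 : (l : ℝ) ≠ 0 := by
    have := h.l0
    positivity
  unfold dd
  rw [Nat.cast_sub (h.card u hu), sub_div, div_self h0]

private theorem dd_le (h : HypL S U L D l m K x q Lam) (u : V) :
    dd L l u ≤ 1 := by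
  have h0 : (0 : ℝ) < l := by exact_mod_cast h.l0
  unfold dd
  have : 0 ≤ ((L u).card : ℝ) / l := by positivity
  linarith

private theorem cv_inj (h : HypL S U L D l m K x q Lam) (v : V) :
    Set.InjOn (fun p : V × κ => p.1) (Cv S U L v : Set (V × κ)) := by
  rintro ⟨u, a⟩ h1 ⟨w, b⟩ h2 h3
  rw [mem_coe] at h1 h2
  unfold Cv at h1 h2
  simp only [mem_filter, mem_univ, true_and] at h1 h2 h3
  subst h3
  rw [h.inj2 u h1.1 a h1.2.1 b h2.2.1 (h1.2.2.trans h2.2.2.symm)]

/-- sums over the vertices with an option using `v` -/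
private theorem sum_cvI (h : HypL S U L D l m K x q Lam) (v : V) (B : Finset V)
    (F : V → ℝ) : ∑ u ∈ B, F u * cvI S U L v u =
      ∑ p ∈ (Cv S U L v).filter (fun p => p.1 ∈ B), F p.1 := by
  have h1 : B.filter (fun u => ∃ b, (u, b) ∈ Cv S U L v) =
      ((Cv S U L v).filter (fun p => p.1 ∈ B)).image (fun p => p.1) := by
    ext u
    rw [mem_filter, mem_image]
    constructor
    · rintro ⟨h1, b, h2⟩
      exact ⟨(u, b), mem_filter.2 ⟨h2, h1⟩, rfl⟩
    · rintro ⟨⟨w, b⟩, h1, h2⟩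
      rw [mem_filter] at h1
      have h3 : w = u := h2
      subst h3
      exact ⟨h1.2, b, h1.1⟩
  have h2 : ∑ u ∈ B, F u * cvI S U L v u =
      ∑ u ∈ B.filter (fun u => ∃ b, (u, b) ∈ Cv S U L v), F u := by
    rw [sum_filter]
    refine sum_congr rfl fun u _ => ?_
    unfold cvI
    split_ifs
    · rw [mul_one]
    · rw [mul_zero]
  rw [h2, h1, sum_image]
  intro p hp p' hp' hpp
  rw [mem_coe, mem_filter] at hp hp'
  exact cv_inj h v hp.1 hp'.1 hpp

private theorem pn_sub {u : V} {a : κ} {w : V} (hw : w ∈ Pn S U L u a) : w ∈ U ∧ a ∈ L w := by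
  unfold Pn at hw
  rw [mem_filter] at hw
  exact ⟨hw.2.1, hw.2.2.2⟩

private theorem sum_pnI (p : V × κ) (B : Finset V) (F : V → ℝ) :
    ∑ u ∈ B, F u * pnI S U L p u = ∑ u ∈ B.filter (fun u => u ∈ Pn S U L p.1 p.2), F u := by
  rw [sum_filter]
  refine sum_congr rfl fun u _ => ?_
  unfold pnI
  split_ifs
  · rw [mul_one]
  · rw [mul_zero]

/-- sums of the test `pnR` -/
private theorem sum_pnR (p : V × κ) (F : V → κ → ℝ) :
    ∑ w ∈ U, ∑ b ∈ L w, pnR S U L p w b * F w b = ∑ w ∈ Pn S U L p.1 p.2, F w p.2 := by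
  have h1 : ∀ w ∈ U, ∑ b ∈ L w, pnR S U L p w b * F w b =
      if w ∈ Pn S U L p.1 p.2 then F w p.2 else 0 := by
    intro w _
    split_ifs with h1
    · rw [sum_eq_single p.2]
      · unfold pnR
        rw [if_pos ⟨h1, rfl⟩, one_mul]
      · intro b _ hb
        unfold pnR
        rw [if_neg fun h => hb h.2, zero_mul]
      · intro h2
        exact absurd (pn_sub h1).2 h2
    · refine sum_eq_zero fun b _ => ?_
      unfold pnR
      rw [if_neg fun h => h1 h.1, zero_mul]
  rw [sum_congr rfl h1, ← sum_filter]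
  congr 1
  ext w
  rw [mem_filter]
  exact ⟨fun h => h.2, fun h => ⟨(pn_sub h).1, h⟩⟩

/-- the sum of squares of the test `pnR` -/
private theorem sq_pnR (p : V × κ) :
    sq (PS S D l) (PU U l) (PL L idx l) (TR (pnR S U L p)) ≤
      2 * ((Pn S U L p.1 p.2).card : ℝ) := by
  have hnm : nm (PU U l) (PL L idx l) (TR (pnR S U L p)) = ((Pn S U L p.1 p.2).card : ℝ) := by
    rw [nm_TR]
    unfold nm
    have h1 := sum_pnR (S := S) (U := U) (L := L) p (fun _ _ => 1)
    simp only [mul_one, sum_const, nsmul_eq_mul] at h1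
    exact h1
  have hnn : ∀ w b, 0 ≤ TR (pnR S U L p) (w : V ⊕ (V × Fin l)) (b : κ ⊕ (Fin (D + 1) × Fin l)) :=
    TR_nn fun w b => (pnR01 p w b).1
  have h1 : ∑ w ∈ PU U l, rs (PL L idx l) (TR (pnR S U L p)) w ^ 2 ≤
      ((Pn S U L p.1 p.2).card : ℝ) := by
    rw [← hnm]
    unfold nm
    refine sum_le_sum fun w hw => ?_
    obtain ⟨u, hu, rfl⟩ := PU_cases hw
    have h2 : rs (PL L idx l) (TR (pnR S U L p)) (Sum.inl u) ≤ 1 := by
      unfold rs
      rw [sum_PL]
      have h3 : ∑ p' ∈ dum L idx l u, TR (pnR S U L p) (Sum.inl u : V ⊕ (V × Fin l))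
          (Sum.inr p' : κ ⊕ (Fin (D + 1) × Fin l)) = 0 := sum_eq_zero fun p _ => rfl
      rw [h3, add_zero]
      have h4 : ∑ a ∈ L u, TR (pnR S U L p) (Sum.inl u : V ⊕ (V × Fin l))
          (Sum.inl a : κ ⊕ (Fin (D + 1) × Fin l)) ≤ ∑ a ∈ L u, if a = p.2 then (1 : ℝ) else 0 := by
        refine sum_le_sum fun a _ => ?_
        show pnR S U L p u a ≤ _
        unfold pnR
        by_cases h4 : a = p.2
        · rw [if_pos h4]
          split_ifs <;> norm_num
        · rw [if_neg h4, if_neg fun h => h4 h.2]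
      refine h4.trans ?_
      rw [sum_ite_eq']
      split_ifs <;> norm_num
    have h5 : 0 ≤ rs (PL L idx l) (TR (pnR S U L p)) (Sum.inl u) := sum_nonneg fun b _ => hnn _ _
    have h6 : rs (PL L idx l) (TR (pnR S U L p)) (Sum.inl u) =
        ∑ b ∈ PL L idx l (Sum.inl u), TR (pnR S U L p) (Sum.inl u) b := rfl
    rw [← h6]
    nlinarith
  have h2 : ∑ v, cs (PS S D l) (PU U l) (PL L idx l) (TR (pnR S U L p)) v ^ 2 ≤
      ((Pn S U L p.1 p.2).card : ℝ) := by
    have h3 : ∀ v, cs (PS S D l) (PU U l) (PL L idx l) (TR (pnR S U L p)) v ≤ 1 := by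
      intro v
      have hz : ∀ w b, TR (pnR S U L p) (w : V ⊕ (V × Fin l)) (b : κ ⊕ (Fin (D + 1) × Fin l)) ≠ 0 →
          b = Sum.inl p.2 := by
        rintro (w | w) (b | b) h
        · have h4 : pnR S U L p w b ≠ 0 := h
          unfold pnR at h4
          by_contra h5
          refine h4 (if_neg fun h6 => h5 ?_)
          rw [h6.2]
        · exact absurd rfl h
        · exact absurd rfl h
        · exact absurd rfl h
      have h1le : ∀ w b, TR (pnR S U L p) (w : V ⊕ (V × Fin l))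
          (b : κ ⊕ (Fin (D + 1) × Fin l)) ≤ 1 := TR_le zero_le_one fun w b => (pnR01 p w b).2
      unfold cs
      by_cases hex : ∃ p' ∈ Cv (PS S D l) (PU U l) (PL L idx l) v,
          TR (pnR S U L p) p'.1 p'.2 ≠ 0
      · obtain ⟨p', hp', hne⟩ := hex
        rw [sum_eq_single p']
        · exact h1le _ _
        · intro p'' hp'' hne'
          by_contra h4
          apply hne'
          have e1 := hz _ _ hne
          have e2 := hz _ _ h4
          unfold Cv at hp' hp''
          simp only [mem_filter, mem_univ, true_and] at hp' hp''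
          have e3 : p''.2 = p'.2 := by rw [e1, e2]
          have e4 : (PS S D l).r p''.1 p'.2 = (PS S D l).r p'.1 p'.2 := by
            rw [hp'.2.2, ← e3, hp''.2.2]
          exact Prod.ext ((PS S D l).inj _ _ _ e4) e3
        · intro h4
          exact absurd hp' h4
      · have hex' : ∀ p' ∈ Cv (PS S D l) (PU U l) (PL L idx l) v,
            TR (pnR S U L p) p'.1 p'.2 = 0 := by
          intro p' hp'
          by_contra h6
          exact hex ⟨p', hp', h6⟩
        rw [sum_eq_zero hex']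
        exact zero_le_one
    have h4 : ∀ v, 0 ≤ cs (PS S D l) (PU U l) (PL L idx l) (TR (pnR S U L p)) v :=
      fun v => sum_nonneg fun p' _ => hnn _ _
    have h5 : ∑ v, cs (PS S D l) (PU U l) (PL L idx l) (TR (pnR S U L p)) v =
        nm (PU U l) (PL L idx l) (TR (pnR S U L p)) := by
      unfold nm cs
      have e1 : ∀ v, ∑ p' ∈ Cv (PS S D l) (PU U l) (PL L idx l) v, TR (pnR S U L p) p'.1 p'.2 =
          ∑ p' ∈ (univ : Finset ((V ⊕ (V × Fin l)) × (κ ⊕ (Fin (D + 1) × Fin l)))).filter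
            (fun p' => p'.1 ∈ PU U l ∧ p'.2 ∈ PL L idx l p'.1),
            if (PS S D l).r p'.1 p'.2 = v then TR (pnR S U L p) p'.1 p'.2 else 0 := by
        intro v
        rw [← sum_filter, filter_filter]
        refine sum_congr ?_ fun _ _ => rfl
        ext p'
        unfold Cv
        simp only [mem_filter, mem_univ, true_and, and_assoc]
      rw [sum_congr rfl fun v _ => e1 v, sum_comm]
      have e2 : ∀ p' : (V ⊕ (V × Fin l)) × (κ ⊕ (Fin (D + 1) × Fin l)),
          (∑ v, if (PS S D l).r p'.1 p'.2 = v then TR (pnR S U L p) p'.1 p'.2 else 0) =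
            TR (pnR S U L p) p'.1 p'.2 := by
        intro p'
        rw [sum_ite_eq]
        exact if_pos (mem_univ _)
      rw [sum_congr rfl fun p' _ => e2 p', sum_sigma']
      refine (sum_nbij' (fun s => (s.1, s.2)) (fun p' => ⟨p'.1, p'.2⟩) ?_ ?_ ?_ ?_ ?_).symm
      · rintro ⟨w, b⟩ hs
        rw [mem_sigma] at hs
        simp only [mem_filter, mem_univ, true_and]
        exact hs
      · rintro ⟨w, b⟩ hs
        simp only [mem_filter, mem_univ, true_and] at hs
        rw [mem_sigma]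
        exact hs
      · rintro ⟨w, b⟩ _
        rfl
      · rintro ⟨w, b⟩ _
        rfl
      · rintro ⟨w, b⟩ _
        rfl
    rw [← hnm, ← h5]
    refine sum_le_sum fun v _ => ?_
    have := h3 v
    have := h4 v
    nlinarith
  unfold sq
  linarith

private theorem nm_pnR (p : V × κ) : nm (PU U l) (PL L idx l) (TR (pnR S U L p)) =
    ((Pn S U L p.1 p.2).card : ℝ) := by
  rw [nm_TR]
  unfold nm
  have h1 := sum_pnR (S := S) (U := U) (L := L) p (fun _ _ => 1)
  simp only [mul_one, sum_const, nsmul_eq_mul] at h1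
  exact h1

private theorem nm_pnI (h : HypL S U L D l m K x q Lam) (p : V × κ) :
    nm (PU U l) (PL L idx l) (TX (pnI S U L p)) / l = ∑ w ∈ Pn S U L p.1 p.2, dd L l w := by
  rw [nm_TX, sum_pnI p U fun u => ((l - (L u).card : ℕ) : ℝ), sum_div]
  refine sum_congr ?_ fun w hw => dd_mul h (pn_sub hw).1
  ext w
  rw [mem_filter]
  exact ⟨fun h => h.2, fun h => ⟨(pn_sub h).1, h⟩⟩

private theorem nm_cvI (h : HypL S U L D l m K x q Lam) (v : V) :
    nm (PU U l) (PL L idx l) (TX (cvI S U L v)) / l = ∑ p ∈ Cv S U L v, dd L l p.1 := by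
  have hU : ∀ p ∈ Cv S U L v, p.1 ∈ U := by
    intro p hp
    unfold Cv at hp
    rw [mem_filter] at hp
    exact hp.2.1
  rw [nm_TX, sum_cvI h v U fun u => ((l - (L u).card : ℕ) : ℝ), sum_div, filter_true_of_mem hU]
  exact sum_congr rfl fun p hp => dd_mul h (hU p hp)

end main

/-- **STEP3** -/
theorem thm_Step3 (hStep : St_Step2) (hG : Pool.TCT.St_Greedy) : St_Step3 := by
  intro V κ J _ _ _ _ S U L D l m K x q Lam ctr T μ h t
  obtain ⟨idx, hidx0⟩ := hG V S.adj D S.symm (fun u => by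
    refine le_trans (card_le_card ?_) (h.deg u)
    intro v hv
    rw [mem_filter] at hv ⊢
    exact ⟨mem_univ _, hv.2.2⟩)
  have hidx : ∀ u w, S.adj u w → idx u ≠ idx w := fun u w huw =>
    hidx0 u w (fun h1 => S.irr u (by rw [← h1] at huw; exact huw)) huw
  have hl0 : (0 : ℝ) < l := by exact_mod_cast h.l0
  obtain ⟨B', c', Lo, hBU, hcL, hcr, hca, hLo, hkill, h7, h8, h9, h10⟩ :=
    hStep (V ⊕ (V × Fin l)) (κ ⊕ (Fin (D + 1) × Fin l)) (J ⊕ ((V × κ) ⊕ ((V × κ) ⊕ V)))
      (PS S D l) (PU U l) (PL L idx l) (fun _ => (univ : Finset κ).map Function.Embedding.inl)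
      ((D + 1) ^ 2) l m K x (TR q) Lam (ctrP ctr l) (TP S U L T D l) (muP μ) (hypP h hidx)
      (tstP h t)
  have hBx : ∀ u, u ∈ BXd B' c' U → u ∈ U := fun u hu => by
    unfold BXd at hu
    exact (mem_filter.1 hu).1
  -- the three kinds of bounds for retained vertices
  have hRX : ∀ (F : V → ℝ) (j : J ⊕ ((V × κ) ⊕ ((V × κ) ⊕ V))),
      TP S U L T D l j = TX F → muP μ j = 1 →
      nm (PU U l) (PL L idx l) (TX F) / l ≤ 2 * l →
      ∑ u ∈ BXd B' c' U, F u ≤ bet m K * (nm (PU U l) (PL L idx l) (TX F) / l) + 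
        12 * K * Real.sqrt ((1 * (nm (PU U l) (PL L idx l) (TX F) / l) + Lam * 1 ^ 2) * Lam) := by
    intro F j hj hμ _
    have e1 := h10 j
    rw [hj, hμ, sum_TX B' c' hBU] at e1
    rw [← mul_div_assoc, ← mul_div_assoc]
    exact e1
  refine ⟨BR B' c' U, cR c', fun u => (L u).filter (fun a => Sum.inl a ∈ Lo (Sum.inl u)),
    fun u hu => (cR_mem B' c' hu).1, ?_, ?_, ?_, fun u _ => filter_subset _ _, ?_, ?_, ?_, ?_, ?_⟩
  · intro u hu
    obtain ⟨_, h2, h3⟩ := cR_mem B' c' hu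
    have h4 := hcL _ h2
    rw [h3, mem_PLl] at h4
    exact h4
  · intro u hu w hw huw
    obtain ⟨_, h2, h3⟩ := cR_mem B' c' hu
    obtain ⟨_, h2', h3'⟩ := cR_mem B' c' hw
    have h4 := hcr _ h2 _ h2' (fun h5 => huw (Sum.inl.inj h5))
    rw [h3, h3', r_ll, r_ll] at h4
    exact fun h5 => h4 (by rw [h5])
  · intro u hu w hw huw
    obtain ⟨_, h2, h3⟩ := cR_mem B' c' hu
    obtain ⟨_, h2', h3'⟩ := cR_mem B' c' hw
    have h4 := hca _ h2 _ h2' huw
    rw [h3, h3'] at h4
    exact fun h5 => h4 (by rw [h5])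
  · intro u hu w hw hwu a ha
    obtain ⟨_, h2', h3'⟩ := cR_mem B' c' hw
    rw [mem_filter] at ha
    have h4 := hkill (Sum.inl u) (mem_PU.2 hu) _ h2' (fun h5 => hwu (Sum.inl.inj h5)) _ ha.2
    rw [h3', r_ll, r_ll] at h4
    refine ⟨fun h5 => h4.1 ⟨h5.1, by rw [h5.2]⟩, fun h5 => h4.2 (by rw [h5])⟩
  · intro u hu
    have e1 := h7 (Sum.inl u) (mem_PU.2 hu)
    have e2 : PL L idx l (Sum.inl u) ∩ (univ : Finset κ).map Function.Embedding.inl =
        (L u).map Function.Embedding.inl := by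
      ext b
      rw [mem_inter, mem_map, mem_map]
      constructor
      · rintro ⟨h1, a, _, rfl⟩
        exact ⟨a, mem_PLl.1 h1, rfl⟩
      · rintro ⟨a, ha, rfl⟩
        exact ⟨mem_PLl.2 ha, a, mem_univ _, rfl⟩
    have e3 : Lo (Sum.inl u) ∩ (univ : Finset κ).map Function.Embedding.inl =
        ((L u).filter (fun a => Sum.inl a ∈ Lo (Sum.inl u))).map Function.Embedding.inl := by
      ext b
      rw [mem_inter, mem_map, mem_map]
      constructor
      · rintro ⟨h1, a, _, rfl⟩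
        exact ⟨a, mem_filter.2 ⟨mem_PLl.1 (hLo _ (mem_PU.2 hu) h1), h1⟩, rfl⟩
      · rintro ⟨a, ha, rfl⟩
        exact ⟨(mem_filter.1 ha).2, a, mem_univ _, rfl⟩
    rw [e2, e3, card_map, sum_map] at e1
    exact e1
  · intro v
    have hcv : ∀ p ∈ Cv S U L v, p.1 ∈ U ∧ p.2 ∈ L p.1 := by
      intro p hp
      unfold Cv at hp
      rw [mem_filter] at hp
      exact ⟨hp.2.1, hp.2.2.1⟩
    have e1 := h8 (Sum.inl v)
    rw [Cv_l, sum_map] at e1
    have e2 : (((Cv S U L v).filter (fun p => Sum.inl p.1 ∉ B' ∧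
        (Sum.inl p.2 : κ ⊕ (Fin (D + 1) × Fin l)) ∈ Lo (Sum.inl p.1))).card : ℝ) ≤
        (∑ p ∈ Cv S U L v, (1 - bet m K) * (1 - q p.1 p.2)) + Er K Lam l * l := by
      refine le_trans (le_of_eq ?_) e1
      rw [filter_map, card_map]
      rfl
    have e3 : (((Cv S U L v).filter (fun p => p.1 ∈ BXd B' c' U)).card : ℝ) ≤
        bet m K * (∑ p ∈ Cv S U L v, dd L l p.1) + Er K Lam l * l := by
      have f1 : ∑ u ∈ BXd B' c' U, cvI S U L v u =
          (((Cv S U L v).filter (fun p => p.1 ∈ BXd B' c' U)).card : ℝ) := by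
        have f2 := sum_cvI h v (BXd B' c' U) (fun _ => 1)
        simp only [one_mul, sum_const, nsmul_eq_mul, mul_one] at f2
        exact f2
      have f3 : nm (PU U l) (PL L idx l) (TX (cvI S U L v)) / l ≤ 2 * l := by
        rw [nm_cvI h v]
        calc ∑ p ∈ Cv S U L v, dd L l p.1 ≤ ∑ p ∈ Cv S U L v, (1 : ℝ) :=
              sum_le_sum fun p _ => dd_le h _
          _ = ((Cv S U L v).card : ℝ) := by rw [sum_const, nsmul_eq_mul, mul_one]
          _ ≤ x := h.hC v
          _ ≤ 2 * l := h.x1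
      have f4 := hRX (cvI S U L v) (Sum.inr (Sum.inr (Sum.inr v))) rfl rfl f3
      rw [f1] at f4
      have f5 := num1 h.l0 h.L1 h.Ll h.K24 f3
      rw [← nm_cvI h v]
      linarith
    have e4 : ((Cv S U L v).filter (fun p => p.1 ∉ BR B' c' U ∧
        p.2 ∈ (L p.1).filter (fun a => Sum.inl a ∈ Lo (Sum.inl p.1)))) ⊆
        (Cv S U L v).filter (fun p => Sum.inl p.1 ∉ B' ∧
          (Sum.inl p.2 : κ ⊕ (Fin (D + 1) × Fin l)) ∈ Lo (Sum.inl p.1)) ∪
        (Cv S U L v).filter (fun p => p.1 ∈ BXd B' c' U) := by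
      intro p hp
      rw [mem_filter, mem_filter] at hp
      rw [mem_union, mem_filter, mem_filter]
      rcases not_BR B' c' (hcv p hp.1).1 hp.2.1 with h1 | h1
      · exact Or.inl ⟨hp.1, h1, hp.2.2.2⟩
      · exact Or.inr ⟨hp.1, h1⟩
    have e5 := (card_le_card e4).trans (card_union_le _ _)
    have e6 : ((((Cv S U L v).filter (fun p => p.1 ∉ BR B' c' U ∧
        p.2 ∈ (L p.1).filter (fun a => Sum.inl a ∈ Lo (Sum.inl p.1)))).card : ℕ) : ℝ) ≤
        (((Cv S U L v).filter (fun p => Sum.inl p.1 ∉ B' ∧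
          (Sum.inl p.2 : κ ⊕ (Fin (D + 1) × Fin l)) ∈ Lo (Sum.inl p.1))).card : ℝ) +
        (((Cv S U L v).filter (fun p => p.1 ∈ BXd B' c' U)).card : ℝ) := by exact_mod_cast e5
    rw [sum_add_distrib, ← mul_sum]
    rw [← mul_sum] at e2
    refine e6.trans ?_
    rw [← mul_sum]
    linarith
  · intro u hu a ha
    have e1 := h9 (Sum.inr (Sum.inl (u, a)))
    have hTP : TP S U L T D l (Sum.inr (Sum.inl (u, a))) = TR (pnR S U L (u, a)) := rfl
    rw [hTP, nm_pnR] at e1
    -- left side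
    have hleft : ∑ w ∈ PU U l \ B', ∑ b ∈ Lo w, TR (pnR S U L (u, a)) w b =
        (((Pn S U L u a).filter (fun w => Sum.inl w ∉ B' ∧
          (Sum.inl a : κ ⊕ (Fin (D + 1) × Fin l)) ∈ Lo (Sum.inl w))).card : ℝ) := by
      have g1 : ∑ w ∈ PU U l \ B', ∑ b ∈ Lo w, TR (pnR S U L (u, a)) w b =
          ∑ w ∈ PU U l, if w ∉ B' then ∑ b ∈ Lo w, TR (pnR S U L (u, a)) w b else 0 := by
        rw [← sum_filter, sdiff_eq_filter]
      rw [g1, sum_PU]
      have g2 : ∀ w ∈ U, (if (Sum.inl w : V ⊕ (V × Fin l)) ∉ B' then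
          ∑ b ∈ Lo (Sum.inl w), TR (pnR S U L (u, a)) (Sum.inl w) b else 0) =
          if w ∈ Pn S U L u a ∧ Sum.inl w ∉ B' ∧
            (Sum.inl a : κ ⊕ (Fin (D + 1) × Fin l)) ∈ Lo (Sum.inl w) then (1 : ℝ) else 0 := by
        intro w hw
        by_cases c1 : (Sum.inl w : V ⊕ (V × Fin l)) ∈ B'
        · rw [if_neg fun h => h c1, if_neg fun h => h.2.1 c1]
        · rw [if_pos c1]
          by_cases c2 : w ∈ Pn S U L u a
          · by_cases c3 : (Sum.inl a : κ ⊕ (Fin (D + 1) × Fin l)) ∈ Lo (Sum.inl w)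
            · rw [if_pos ⟨c2, c1, c3⟩, sum_eq_single (Sum.inl a)]
              · show pnR S U L (u, a) w a = 1
                unfold pnR
                exact if_pos ⟨c2, rfl⟩
              · rintro (b | b) _ hb
                · show pnR S U L (u, a) w b = 0
                  unfold pnR
                  exact if_neg fun h => hb (by rw [h.2])
                · rfl
              · intro h
                exact absurd c3 h
            · rw [if_neg fun h => c3 h.2.2]
              refine sum_eq_zero ?_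
              rintro (b | b) hb
              · show pnR S U L (u, a) w b = 0
                unfold pnR
                exact if_neg fun h => c3 (by
                  have h2 : b = a := h.2
                  rw [← h2]
                  exact hb)
              · rfl
          · rw [if_neg fun h => c2 h.1]
            refine sum_eq_zero ?_
            rintro (b | b) _
            · show pnR S U L (u, a) w b = 0
              unfold pnR
              exact if_neg fun h => c2 h.1
            · rfl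
      rw [sum_congr rfl g2, sum_boole]
      congr 2
      ext w
      rw [mem_filter, mem_filter]
      exact ⟨fun h => ⟨h.2.1, h.2.2⟩, fun h => ⟨(pn_sub h.1).1, h.1, h.2⟩⟩
    have hright : ∑ w ∈ PU U l, ∑ b ∈ PL L idx l w, TR (pnR S U L (u, a)) w b *
        Mt (PS S D l) (PU U l) (PL L idx l) l m K x (TR q) w b =
        ∑ w ∈ Pn S U L u a, Mt S U L l m K x q w a := by
      rw [sum_PU]
      have g1 : ∀ w ∈ U, ∑ b ∈ PL L idx l (Sum.inl w), TR (pnR S U L (u, a)) (Sum.inl w) b *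
          Mt (PS S D l) (PU U l) (PL L idx l) l m K x (TR q) (Sum.inl w) b =
          ∑ b ∈ L w, pnR S U L (u, a) w b * Mt S U L l m K x q w b := by
        intro w _
        rw [sum_PL]
        have g2 : ∑ p ∈ dum L idx l w, TR (pnR S U L (u, a)) (Sum.inl w : V ⊕ (V × Fin l))
            (Sum.inr p : κ ⊕ (Fin (D + 1) × Fin l)) *
            Mt (PS S D l) (PU U l) (PL L idx l) l m K x (TR q) (Sum.inl w) (Sum.inr p) = 0 :=
          sum_eq_zero fun p _ => zero_mul _
        rw [g2, add_zero]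
        refine sum_congr rfl fun b _ => ?_
        unfold Mt fK
        rw [pq_l]
        rfl
      rw [sum_congr rfl g1]
      exact sum_pnR (u, a) _
    rw [hleft, hright] at e1
    have hPn : ((Pn S U L u a).card : ℝ) ≤ 2 * l := h.hP u hu a ha
    have hsq : sq (PS S D l) (PU U l) (PL L idx l) (TR (pnR S U L (u, a))) ≤ 4 * l := by
      have := sq_pnR (S := S) (U := U) (L := L) (idx := idx) (l := l) (u, a)
      refine this.trans ?_
      linarith
    have f3 : nm (PU U l) (PL L idx l) (TX (pnI S U L (u, a))) / l ≤ 2 * l := by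
      rw [nm_pnI h]
      calc ∑ w ∈ Pn S U L u a, dd L l w ≤ ∑ w ∈ Pn S U L u a, (1 : ℝ) :=
            sum_le_sum fun w _ => dd_le h _
        _ = ((Pn S U L u a).card : ℝ) := by rw [sum_const, nsmul_eq_mul, mul_one]
        _ ≤ 2 * l := hPn
    have f4 := hRX (pnI S U L (u, a)) (Sum.inr (Sum.inr (Sum.inl (u, a)))) rfl rfl f3
    have f1 : ∑ w ∈ BXd B' c' U, pnI S U L (u, a) w =
        (((Pn S U L u a).filter (fun w => w ∈ BXd B' c' U)).card : ℝ) := by
      have f2 := sum_pnI (S := S) (U := U) (L := L) (u, a) (BXd B' c' U) (fun _ => 1)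
      simp only [one_mul, sum_const, nsmul_eq_mul, mul_one] at f2
      rw [f2]
      congr 2
      ext w
      rw [mem_filter, mem_filter]
      exact ⟨fun h => ⟨h.2, h.1⟩, fun h => ⟨h.2, h.1⟩⟩
    rw [f1] at f4
    have f5 := num2 (n := ((Pn S U L u a).card : ℝ)) h.l0 h.L1 h.Ll h.K24 f3 hPn hsq
    have e4 : ((Pn S U L u a).filter (fun w => w ∉ BR B' c' U ∧
        a ∈ (L w).filter (fun a => Sum.inl a ∈ Lo (Sum.inl w)))) ⊆
        (Pn S U L u a).filter (fun w => Sum.inl w ∉ B' ∧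
          (Sum.inl a : κ ⊕ (Fin (D + 1) × Fin l)) ∈ Lo (Sum.inl w)) ∪
        (Pn S U L u a).filter (fun w => w ∈ BXd B' c' U) := by
      intro w hw
      rw [mem_filter, mem_filter] at hw
      rw [mem_union, mem_filter, mem_filter]
      rcases not_BR B' c' (pn_sub hw.1).1 hw.2.1 with h1 | h1
      · exact Or.inl ⟨hw.1, h1, hw.2.2.2⟩
      · exact Or.inr ⟨hw.1, h1⟩
    have e5 := (card_le_card e4).trans (card_union_le _ _)
    have e6 : ((((Pn S U L u a).filter (fun w => w ∉ BR B' c' U ∧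
        a ∈ (L w).filter (fun a => Sum.inl a ∈ Lo (Sum.inl w)))).card : ℕ) : ℝ) ≤
        (((Pn S U L u a).filter (fun w => Sum.inl w ∉ B' ∧
          (Sum.inl a : κ ⊕ (Fin (D + 1) × Fin l)) ∈ Lo (Sum.inl w))).card : ℝ) +
        (((Pn S U L u a).filter (fun w => w ∈ BXd B' c' U)).card : ℝ) := by exact_mod_cast e5
    refine e6.trans ?_
    rw [sum_add_distrib, ← mul_sum, ← nm_pnI h (u, a)]
    linarith
  · intro j
    have e1 := h10 (Sum.inl j)
    have hTP : TP S U L T D l (Sum.inl j) = TR (T j) := rfl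
    have hmu : muP (κ := κ) (V := V) μ (Sum.inl j) = μ j := rfl
    rw [hTP, hmu, sum_TR B' c' hBU, nm_TR] at e1
    exact e1

end Pool.TCU
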