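import Pool.Agent.Helper93.TCU.SStmts

/-!
# Padding of the lists (for `St_Step3`)
-/

set_option autoImplicit false

namespace Pool.TCU.Pad

open Pool.TC Pool.TCM Pool.TCS Pool.TCU Finset
open scoped Classical

attribute [-instance] instDecidableEqSum

variable {V κ : Type} {D l : ℕ}

/-- the padded conflict structure -/
noncomputable def PS (S : CS V κ) (D l : ℕ) :
    CS (V ⊕ (V × Fin l)) (κ ⊕ (Fin (D + 1) × Fin l)) where
  adj u w := match u, w with
    | Sum.inl u, Sum.inl w => S.adj u w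
    | _, _ => False
  r u c := match u, c with
    | Sum.inl u, Sum.inl a => Sum.inl (S.r u a)
    | Sum.inl u, Sum.inr p => Sum.inr (u, p.2)
    | Sum.inr p, Sum.inl _ => Sum.inr p
    | Sum.inr p, Sum.inr t => if p.2 = t.2 then Sum.inl p.1 else Sum.inr p
  symm := by
    rintro (u | u) (w | w) h
    · exact S.symm u w h
    · exact h
    · exact h
    · exact h
  irr := by
    rintro (u | u) h
    · exact S.irr u h
    · exact h
  inj := by
    rintro (u | ⟨u, s⟩) (w | ⟨w, s'⟩) (a | ⟨i, t⟩) h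
    · simp only [Sum.inl.injEq] at h
      rw [S.inj u w a h]
    · simp only [Sum.inr.injEq, Prod.mk.injEq] at h
      rw [h.1]
    · simp at h
    · simp only at h
      by_cases h1 : s' = t
      · rw [if_pos h1] at h
        simp at h
      · rw [if_neg h1] at h
        simp only [Sum.inr.injEq, Prod.mk.injEq] at h
        exact absurd h.2.symm h1
    · simp at h
    · simp only at h
      by_cases h1 : s = t
      · rw [if_pos h1] at h
        simp at h
      · rw [if_neg h1] at h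
        simp only [Sum.inr.injEq, Prod.mk.injEq] at h
        exact absurd h.2 h1
    · simpa using h
    · simp only at h
      by_cases h1 : s = t
      · by_cases h2 : s' = t
        · rw [if_pos h1, if_pos h2] at h
          simp only [Sum.inl.injEq] at h
          rw [h, h1, h2]
        · rw [if_pos h1, if_neg h2] at h
          simp at h
      · by_cases h2 : s' = t
        · rw [if_neg h1, if_pos h2] at h
          simp at h
        · rw [if_neg h1, if_neg h2] at h
          simpa using h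

theorem adj_ll {S : CS V κ} (u w : V) : (PS S D l).adj (Sum.inl u) (Sum.inl w) ↔ S.adj u w :=
  Iff.rfl

theorem adj_r {S : CS V κ} (u : V ⊕ (V × Fin l)) (w : V × Fin l) :
    ¬ (PS S D l).adj u (Sum.inr w) := by
  rcases u with u | u <;> exact fun h => h

theorem r_ll {S : CS V κ} (u : V) (a : κ) :
    (PS S D l).r (Sum.inl u) (Sum.inl a) = Sum.inl (S.r u a) := rfl

theorem r_lr {S : CS V κ} (u : V) (p : Fin (D + 1) × Fin l) :
    (PS S D l).r (Sum.inl u) (Sum.inr p) = Sum.inr (u, p.2) := rfl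

/-- the dummies of `u` -/
noncomputable def dum (L : V → Finset κ) (idx : V → Fin (D + 1)) (l : ℕ) (u : V) :
    Finset (Fin (D + 1) × Fin l) :=
  univ.filter fun p => p.1 = idx u ∧ p.2.val < l - (L u).card

/-- the padded lists -/
noncomputable def PL (L : V → Finset κ) (idx : V → Fin (D + 1)) (l : ℕ) :
    V ⊕ (V × Fin l) → Finset (κ ⊕ (Fin (D + 1) × Fin l))
  | Sum.inl u => (L u).disjSum (dum L idx l u)
  | Sum.inr _ => ∅

/-- the padded vertex set -/
noncomputable def PU (U : Finset V) (l : ℕ) : Finset (V ⊕ (V × Fin l)) :=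
  U.map Function.Embedding.inl

theorem mem_PU {U : Finset V} {u : V} : (Sum.inl u : V ⊕ (V × Fin l)) ∈ PU U l ↔ u ∈ U := by
  unfold PU
  rw [mem_map]
  constructor
  · rintro ⟨w, hw, h⟩
    have : w = u := Sum.inl.inj h
    rwa [← this]
  · intro h
    exact ⟨u, h, rfl⟩

theorem not_mem_PU {U : Finset V} {p : V × Fin l} : (Sum.inr p : V ⊕ (V × Fin l)) ∉ PU U l := by
  unfold PU
  rw [mem_map]
  rintro ⟨w, _, h⟩
  exact absurd h (by simp)

theorem PU_cases {U : Finset V} {w : V ⊕ (V × Fin l)} (hw : w ∈ PU U l) :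
    ∃ u ∈ U, w = Sum.inl u := by
  rcases w with u | p
  · exact ⟨u, mem_PU.1 hw, rfl⟩
  · exact absurd hw not_mem_PU

section lists
variable {L : V → Finset κ} {idx : V → Fin (D + 1)}

theorem mem_PLl {u : V} {a : κ} :
    (Sum.inl a : κ ⊕ (Fin (D + 1) × Fin l)) ∈ PL L idx l (Sum.inl u) ↔ a ∈ L u := by
  unfold PL
  exact inl_mem_disjSum

theorem mem_PLr {u : V} {p : Fin (D + 1) × Fin l} :
    (Sum.inr p : κ ⊕ (Fin (D + 1) × Fin l)) ∈ PL L idx l (Sum.inl u) ↔
      p.1 = idx u ∧ p.2.val < l - (L u).card := by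
  unfold PL
  rw [inr_mem_disjSum]
  unfold dum
  rw [mem_filter]
  simp

theorem card_dum (u : V) : (dum L idx l u).card = l - (L u).card := by
  have h1 : (dum L idx l u) =
      ((univ : Finset (Fin l)).filter fun t => t.val < l - (L u).card).map
        ⟨fun t => (idx u, t), fun a b h => (Prod.mk.inj h).2⟩ := by
    ext ⟨i, t⟩
    unfold dum
    simp only [mem_filter, mem_univ, true_and, mem_map, Function.Embedding.coeFn_mk,
      Prod.mk.injEq]
    constructor
    · rintro ⟨h1, h2⟩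
      exact ⟨t, h2, h1.symm, rfl⟩
    · rintro ⟨s, h1, h2, h3⟩
      exact ⟨h2.symm, by rw [← h3]; exact h1⟩
  rw [h1, card_map, Fin.card_filter_val_lt]
  exact min_eq_right (Nat.sub_le _ _)

theorem card_PL {u : V} (h : (L u).card ≤ l) : (PL L idx l (Sum.inl u)).card = l := by
  unfold PL
  rw [card_disjSum, card_dum]
  omega

theorem sum_PL {M : Type} [AddCommMonoid M] (u : V) (F : κ ⊕ (Fin (D + 1) × Fin l) → M) :
    ∑ b ∈ PL L idx l (Sum.inl u), F b =
      (∑ a ∈ L u, F (Sum.inl a)) + ∑ p ∈ dum L idx l u, F (Sum.inr p) := by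
  unfold PL
  exact sum_disjSum _ _ _

theorem sum_PU {M : Type} [AddCommMonoid M] (U : Finset V) (F : V ⊕ (V × Fin l) → M) :
    ∑ w ∈ PU U l, F w = ∑ u ∈ U, F (Sum.inl u) := by
  unfold PU
  rw [sum_map]
  rfl

end lists

set_option linter.unusedSectionVars false

section fin
variable [Fintype V] [Fintype κ] {S : CS V κ} {U : Finset V} {L : V → Finset κ}
  {idx : V → Fin (D + 1)}

theorem Pn_l (u : V) (a : κ) :
    Pn (PS S D l) (PU U l) (PL L idx l) (Sum.inl u) (Sum.inl a) =
      (Pn S U L u a).map Function.Embedding.inl := by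
  ext w
  unfold Pn
  simp only [mem_filter, mem_univ, true_and, mem_map, Function.Embedding.inl_apply]
  rcases w with w | w
  · rw [mem_PU, adj_ll, mem_PLl]
    constructor
    · intro h
      exact ⟨w, h, rfl⟩
    · rintro ⟨w', h, h'⟩
      rwa [← Sum.inl.inj h']
  · constructor
    · intro h
      exact absurd h.1 not_mem_PU
    · rintro ⟨w', _, h'⟩
      exact absurd h' (by simp)

theorem Pn_r (hidx : ∀ u w, S.adj u w → idx u ≠ idx w) (u : V) (p : Fin (D + 1) × Fin l)
    (hp : (Sum.inr p : κ ⊕ (Fin (D + 1) × Fin l)) ∈ PL L idx l (Sum.inl u)) :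
    Pn (PS S D l) (PU U l) (PL L idx l) (Sum.inl u) (Sum.inr p) = ∅ := by
  rw [eq_empty_iff_forall_notMem]
  intro w hw
  unfold Pn at hw
  simp only [mem_filter, mem_univ, true_and] at hw
  rcases w with w | w
  · rw [adj_ll, mem_PLr] at hw
    rw [mem_PLr] at hp
    exact hidx u w hw.2.1 (hp.1.symm.trans hw.2.2.1)
  · exact not_mem_PU hw.1

theorem npair_l (A : Finset V) :
    npair (PS S D l) (A.map Function.Embedding.inl) = npair S A := by
  unfold npair
  congr 2
  rw [← card_map (⟨fun p : V × V => ((Sum.inl p.1 : V ⊕ (V × Fin l)), (Sum.inl p.2 : V ⊕ (V × Fin l))),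
    fun a b h => by
      simp only [Prod.mk.injEq, Sum.inl.injEq] at h
      exact Prod.ext h.1 h.2⟩ : V × V ↪ (V ⊕ (V × Fin l)) × (V ⊕ (V × Fin l)))]
  congr 1
  ext ⟨w, w'⟩
  simp only [mem_filter, mem_product, mem_map, Function.Embedding.inl_apply,
    Function.Embedding.coeFn_mk, Prod.mk.injEq, Prod.exists]
  constructor
  · rintro ⟨⟨⟨u, hu, rfl⟩, ⟨u', hu', rfl⟩⟩, h1, h2⟩
    exact ⟨u, u', ⟨⟨hu, hu'⟩, fun h => h1 (by rw [h]), h2⟩, rfl, rfl⟩
  · rintro ⟨u, u', ⟨⟨hu, hu'⟩, h1, h2⟩, rfl, rfl⟩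
    exact ⟨⟨⟨u, hu, rfl⟩, ⟨u', hu', rfl⟩⟩, fun h => h1 (Sum.inl.inj h), h2⟩

/-- pairs of a vertex and a real option -/
def emb : V × κ ↪ (V ⊕ (V × Fin l)) × (κ ⊕ (Fin (D + 1) × Fin l)) :=
  ⟨fun p => (Sum.inl p.1, Sum.inl p.2), fun a b h => by
    simp only [Prod.mk.injEq, Sum.inl.injEq] at h
    exact Prod.ext h.1 h.2⟩

theorem Cv_l (v : V) : Cv (PS S D l) (PU U l) (PL L idx l) (Sum.inl v) =
    (Cv S U L v).map emb := by
  ext ⟨w, b⟩
  unfold Cv emb
  simp only [mem_filter, mem_univ, true_and, mem_map, Function.Embedding.coeFn_mk,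
    Prod.mk.injEq, Prod.exists]
  constructor
  · rintro ⟨h1, h2, h3⟩
    obtain ⟨u, hu, rfl⟩ := PU_cases h1
    rcases b with a | p
    · rw [mem_PLl] at h2
      rw [r_ll] at h3
      exact ⟨u, a, ⟨hu, h2, Sum.inl.inj h3⟩, rfl, rfl⟩
    · rw [r_lr] at h3
      exact absurd h3 (by simp)
  · rintro ⟨u, a, ⟨h1, h2, h3⟩, rfl, rfl⟩
    rw [mem_PU, mem_PLl, r_ll, h3]
    exact ⟨h1, h2, rfl⟩

theorem Cv_r (v : V × Fin l) :
    (Cv (PS S D l) (PU U l) (PL L idx l) (Sum.inr v)).card ≤ 1 := by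
  rw [card_le_one]
  rintro ⟨w, b⟩ h ⟨w', b'⟩ h'
  unfold Cv at h h'
  simp only [mem_filter, mem_univ, true_and] at h h'
  obtain ⟨u, hu, rfl⟩ := PU_cases h.1
  obtain ⟨u', hu', rfl⟩ := PU_cases h'.1
  rcases b with a | p
  · have := h.2.2
    rw [r_ll] at this
    exact absurd this (by simp)
  · rcases b' with a' | p'
    · have := h'.2.2
      rw [r_ll] at this
      exact absurd this (by simp)
    · have e1 := h.2.2
      have e2 := h'.2.2
      rw [r_lr] at e1 e2
      have e3 := Sum.inr.inj (e1.trans e2.symm)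
      rw [Prod.mk.injEq] at e3
      have e4 : u = u' := e3.1
      have e5 : p.2 = p'.2 := e3.2
      have h1 := mem_PLr.1 h.2.1
      have h2 := mem_PLr.1 h'.2.1
      have e6 : p.1 = p'.1 := by rw [h1.1, h2.1, e4]
      rw [e4, Prod.ext e6 e5]

theorem stp_l {u w : V} (h : stp S u w) :
    stp (PS S D l) (Sum.inl u) (Sum.inl w) := by
  rcases h with h | h | ⟨a, h⟩ | ⟨a, h⟩
  · exact Or.inl (by rw [h])
  · exact Or.inr (Or.inl h)
  · exact Or.inr (Or.inr (Or.inl ⟨Sum.inl a, by rw [r_ll, h]⟩))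
  · exact Or.inr (Or.inr (Or.inr ⟨Sum.inl a, by rw [r_ll, h]⟩))

theorem near_l {n : ℕ} {u w : V} (h : near S n u w) :
    near (PS S D l) n (Sum.inl u) (Sum.inl w) := by
  induction n generalizing w with
  | zero =>
    have h1 : u = w := h
    show Sum.inl u = Sum.inl w
    rw [h1]
  | succ n ih =>
    obtain ⟨v, h1, h2⟩ := h
    exact ⟨Sum.inl v, ih h1, stp_l h2⟩

theorem near_refl (S : CS V κ) (n : ℕ) (u : V) : near S n u u := by
  induction n with
  | zero => rfl
  | succ n ih => exact ⟨u, ih, Or.inl rfl⟩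

theorem near_stp {u w : V} (h : stp S u w) (n : ℕ) : near S (n + 1) u w :=
  ⟨u, near_refl S n u, h⟩

end fin

end Pool.TCU.Pad
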